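import Pool.Agent.X320.RV.Final

/-!
# Representations over Noetherian local rings: quasi-unipotent Frobenius elements on a set of upper density `> 1 - 1/n`

Let `K` be a number field, `A` a Noetherian local ring with the topology of its maximal ideal and
`ρ : G_K → GL_n(A)` continuous, with any ramification.  Suppose that for the places `v` of a set `Good` some positive
power of `ρ(σ)` is unipotent for all Frobenius elements `σ` at `v` (for instance that `ρ(σ)` has finite order).

* If the upper density of `Good` is larger than `1 - 1/n`, then `ρ` is unipotent on an open subgroup; if `ρ` is
  semisimple over a field which contains `A`, then the image of `ρ` is finite.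
* If `A` is a domain, `n ≥ 2` and over the fraction field the image of every open subgroup spans all matrices, then
  the density of `Good` is zero.

The proof: for a ring homomorphism `φ` from `A` to an algebraically closed field `k` the roots of unity among the
eigenvalues have bounded order (by Krull's intersection theorem in `A[ζ_p]`), so that the quasi-unipotent elements
are in a closed set, whose measure is at least the upper density by Chebotarev's theorem.  The zero sets of
polynomials in the matrix coefficients with coefficients in `k` are closed, as submodules of `A^r` are closed, and
satisfy the descending chain condition.  For a simple submodule `S` for a small open normal subgroup `W` the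
stabiliser of the isomorphism class of `S` has index at most `n`, so it meets the closed set in a set of positive
measure; there a nondegenerate linear functional of `ρ(w)`, `w ∈ W`, takes only finitely many values (sums of roots
of unity), so that it is constant on a coset of an open subgroup, which then acts trivially on `S`.
-/

set_option autoImplicit false

namespace Pool.Agent.Results.MP_924d78_nt.DenseFrobenius

open NumberField IsDedekindDomain Matrix IsLocalRing Filter Topology
open Pool.Agent.W401.Cheb Pool.Agent.X320.DS Pool.Agent.X320.RV

theorem result (K : Type) [Field K] [NumberField K] (A : Type) [CommRing A] [IsLocalRing A]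
    [IsNoetherianRing A] [TopologicalSpace A] (hA : IsAdic (maximalIdeal A)) (n : ℕ)
    (ρ : GK K →* GL (Fin n) A) (hρ : Continuous ρ) (Good : HeightOneSpectrum (𝓞 K) → Prop)
    (hX : ∀ v, Good v → ∀ σ, IsFrob v σ → QuasiUnipotent (ρ σ)) :
    (∀ δ : ℝ, (1 - δ) * n < 1 → (∃ᶠ N in atTop, δ ≤ dens Good N) →
      PotentiallyUnipotent ρ ∧
      ∀ (F : Type) [Field F] (φ : A →+* F), Function.Injective φ →
        Semisimple ((GeneralLinearGroup.map φ).comp ρ) → (Set.range ρ).Finite) ∧
    (IsDomain A → 2 ≤ n → StronglyIrreducible ρ → Tendsto (dens Good) atTop (𝓝 0)) := by
  refine ⟨fun δ hδ hG => ?_, fun hdom hn hs => strong_main hA ρ hρ Good hX hs hn⟩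
  have h1 := dense_main hA ρ hρ Good hX hδ hG
  exact ⟨h1, fun F _ φ hφ hss => finite_of φ ρ hφ hss h1⟩

end Pool.Agent.Results.MP_924d78_nt.DenseFrobenius
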