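import Pool.Agent.X148.FM.NFil3
import Pool.Agent.W215.FM.Gen
import Pool.Agent.W327.FM.TameAbs
import Pool.Agent.W258.FM.TameFin
import Pool.Agent.W571.FM.Frob

/-!
# Representations over local rings: a criterion on the ray class group as a module

Let `K/F` be a finite Galois extension of number fields of degree prime to `p`, `D = Gal(K/F)`, and let `S` be a
set of primes of `F`.  Let `V` be the Galois group of the maximal elementary abelian `p`-extension of `K` which is
unramified outside `S`, an `𝔽_p[D]`-module (by class field theory a quotient of a ray class group modulo `p` if no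
prime above `p` is in `S`), and suppose that `p ^ e > 2` kills the Galois groups of the finite abelian
`p`-extensions of `K` unramified outside `S`.  Suppose that one of the following holds.

(1) No nonzero quotient module `W` of `V` carries a `D`-equivariant alternating bilinear product `W × W → W` whose
values span `W`.

(2) `p ≠ 2`, `K/F` is quadratic and `F` has no cyclic extension of degree `p` unramified outside `S`.

(3) `p ≠ 2`, `F = ℚ`, `K` is quadratic, and `S` consists of prime numbers `l ≢ 0, 1 mod p`.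

Then the following holds for representations `ρ : G_K → GL_n(A)` unramified outside `S`, of any dimension `n`,
which are not supposed to be stable under `D`.

(A) Let `A` be any Noetherian local ring of residue characteristic `p` with its adic topology and let `ρ` be
continuous and trivial modulo `p ^ e`.  Then a power of `p` kills the matrices `ρ g - 1`; `ρ` is trivial if
`p ^ (e + 1) a = 0` implies `p ^ e a = 0` in `A`; and the image of `ρ` is finite if `V` is finite (for finite `S`
this is the case by class field theory).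

(B) Let `A` be any commutative ring with a separated multiplicative filtration `F_0 ⊇ F_1 ⊇ ...` by ideals such that
`p` is in `F_r`, `r ≥ 1`, and the multiplication by `p` from `F_i / F_(i+1)` to `F_(i+r) / F_(i+r+1)` is injective
for all `i`.  If `ρ` is continuous for the topology of the filtration and trivial modulo `F_(e r)` then it is
trivial.  This applies to the powers of the maximal ideal of a Noetherian local ring whose associated graded ring
has the initial form of `p`, of degree `r`, as a non-zero-divisor; if `e = r = 1` then all residually trivial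
representations are trivial.
-/

set_option autoImplicit false

open NumberField IsLocalRing

namespace Pool.Agent.Results.MP_924d78_nt.ModuleCriterionNoetherian

/-- The elements of the inertia groups in the absolute Galois group of `F` at the primes outside `S`: the `τ` such
that `τ x - x ∈ P` for all algebraic integers `x`, for some maximal ideal `P` of the ring of all algebraic integers
with `P ∩ 𝓞 F` not in `S`. -/
def inertia {F : Type} [Field F] (S : Set (Ideal (𝓞 F))) : Set Gal(AlgebraicClosure F/F) :=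
  {τ | ∃ P : Ideal (𝓞 (AlgebraicClosure F)), P.IsMaximal ∧
    P.comap (algebraMap (𝓞 F) (𝓞 (AlgebraicClosure F))) ∉ S ∧ ∀ x : 𝓞 (AlgebraicClosure F), τ • x - x ∈ P}

/-- The homomorphism `f` of the absolute Galois group of `K` is unramified outside `S`. -/
def Unramified {F : Type} [Field F] (S : Set (Ideal (𝓞 F)))
    {K : IntermediateField F (AlgebraicClosure F)} {E : Type} [Group E]
    (f : K.fixingSubgroup →* E) : Prop :=
  ∀ τ : K.fixingSubgroup, (τ : Gal(AlgebraicClosure F/F)) ∈ inertia S → f τ = 1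

/-- `p ^ e` kills the Galois group of every finite abelian extension of `K` of `p`-power degree which is
unramified outside `S`. -/
def AbelianExponent {F : Type} [Field F] (S : Set (Ideal (𝓞 F)))
    (K : IntermediateField F (AlgebraicClosure F)) (p e : ℕ) : Prop :=
  ∀ (E : Type) [CommGroup E] [Finite E], IsPGroup p E → ∀ f : K.fixingSubgroup →* E,
    IsOpen (f.ker : Set K.fixingSubgroup) → Unramified S f → ∀ g, f g ^ (p ^ e) = 1

/-- The homomorphism `f` of the absolute Galois group of `K` to `W` is equivariant for the action `θ` of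
`Gal(K/F)`. -/
def Equivariant {F : Type} [Field F] {K : IntermediateField F (AlgebraicClosure F)} [Normal F K] {p : ℕ}
    {W : Type} [AddCommGroup W] [Module (ZMod p) W] (θ : Representation (ZMod p) Gal(K/F) W)
    (f : K.fixingSubgroup →* Multiplicative W) : Prop :=
  ∀ (σ : Gal(AlgebraicClosure F/F)) (g g' : K.fixingSubgroup),
    (g' : Gal(AlgebraicClosure F/F)) = σ * g * σ⁻¹ → Multiplicative.toAdd (f g') =
      θ (AlgEquiv.restrictNormalHom K σ) (Multiplicative.toAdd (f g))

/-- `b` is an equivariant alternating bilinear product on `W` whose values span `W`. -/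
def PerfectProduct {D : Type} [Group D] {p : ℕ} {W : Type} [AddCommGroup W] [Module (ZMod p) W]
    (θ : Representation (ZMod p) D W) (b : W →ₗ[ZMod p] W →ₗ[ZMod p] W) : Prop :=
  (∀ w, b w w = 0) ∧ (∀ d w w', b (θ d w) (θ d w') = θ d (b w w')) ∧
    Submodule.span (ZMod p) {x | ∃ w w', x = b w w'} = ⊤

/-- No nonzero finite quotient module `W` over `𝔽_p[Gal(K/F)]` of the absolute Galois group of `K`, unramified
outside `S`, carries an equivariant alternating bilinear product whose values span `W`. -/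
def NoPerfectQuotient {F : Type} [Field F] (S : Set (Ideal (𝓞 F)))
    (K : IntermediateField F (AlgebraicClosure F)) [Normal F K] (p : ℕ) [Fact p.Prime] : Prop :=
  ∀ (W : Type) [AddCommGroup W] [Module (ZMod p) W] [Finite W]
    (θ : Representation (ZMod p) Gal(K/F) W) (f : K.fixingSubgroup →* Multiplicative W),
    Function.Surjective f → IsOpen (f.ker : Set K.fixingSubgroup) → Unramified S f →
    Equivariant θ f → ∀ b : W →ₗ[ZMod p] W →ₗ[ZMod p] W, PerfectProduct θ b → Subsingleton W

/-- `F` has no cyclic extension of degree `p` unramified outside `S`. -/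
def NoCyclic {F : Type} [Field F] (S : Set (Ideal (𝓞 F))) (p : ℕ) : Prop :=
  ∀ f : Gal(AlgebraicClosure F/F) →* Multiplicative (ZMod p),
    IsOpen (f.ker : Set Gal(AlgebraicClosure F/F)) → (∀ τ ∈ inertia S, f τ = 1) → ∀ g, f g = 1

/-- `ρ g` is congruent to the identity modulo the ideal `I` of `A` -/
def TrivialAt {A : Type} [CommRing A] {G : Type} [Group G] {n : ℕ} (ρ : G →* GL (Fin n) A)
    (I : Ideal A) (g : G) : Prop :=
  ∀ i j, ((ρ g : Matrix (Fin n) (Fin n) A) - 1) i j ∈ I

/-- (A) Representations over Noetherian local rings of residue characteristic `p` which are trivial modulo `p ^ e`: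
a power of `p` kills `ρ - 1`; `ρ` is trivial if no element is killed by `p ^ (e + 1)` but not by `p ^ e`; and the
image is finite if there are only finitely many homomorphisms to `ℤ/p` unramified outside `S`. -/
def RigidNoetherian {F : Type} [Field F] (S : Set (Ideal (𝓞 F)))
    (K : IntermediateField F (AlgebraicClosure F)) (p e : ℕ) : Prop :=
  ∀ (A : Type) [CommRing A] [IsLocalRing A] [IsNoetherianRing A] [TopologicalSpace A],
    IsAdic (maximalIdeal A) → (p : A) ∈ maximalIdeal A →
    ∀ (n : ℕ) (ρ : K.fixingSubgroup →* GL (Fin n) A), Continuous ρ → Unramified S ρ →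
    (∀ g, TrivialAt ρ (Ideal.span {(p : A) ^ e}) g) →
    (∃ N : ℕ, ∀ g i j, (p : A) ^ N * ((ρ g : Matrix (Fin n) (Fin n) A) - 1) i j = 0) ∧
    ((∀ a : A, (p : A) ^ (e + 1) * a = 0 → (p : A) ^ e * a = 0) → ∀ g, ρ g = 1) ∧
    ({f : K.fixingSubgroup →* Multiplicative (ZMod p) |
      IsOpen (f.ker : Set K.fixingSubgroup) ∧ Unramified S f}.Finite → (Set.range ρ).Finite)

/-- `F` is a separated filtration of the ring `A` by ideals such that `p` is in `F r` and the multiplication by `p`
is injective from `F i / F (i + 1)` to `F (i + r) / F (i + r + 1)`. -/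
structure Filtered {A : Type} [CommRing A] (p r : ℕ) (F : ℕ → Ideal A) : Prop where
  anti : ∀ i, F (i + 1) ≤ F i
  mul : ∀ i j, ∀ a ∈ F i, ∀ b ∈ F j, a * b ∈ F (i + j)
  mem : (p : A) ∈ F r
  inj : ∀ i, ∀ a ∈ F i, (p : A) * a ∈ F (i + r + 1) → a ∈ F (i + 1)
  sep : ∀ a, (∀ i, a ∈ F i) → a = 0

/-- (B) Representations over filtered rings which are trivial modulo `F (e r)` are trivial; if `e = r = 1` and `F`
consists of the powers of the maximal ideal of a local ring these are the residually trivial representations. -/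
def RigidFiltered {F : Type} [Field F] (S : Set (Ideal (𝓞 F)))
    (K : IntermediateField F (AlgebraicClosure F)) (p e : ℕ) : Prop :=
  ∀ (A : Type) [CommRing A] (Fil : ℕ → Ideal A) (r : ℕ), 1 ≤ r → Filtered p r Fil →
    ∀ (n : ℕ) (ρ : K.fixingSubgroup →* GL (Fin n) A),
    (∀ N, IsOpen {g | TrivialAt ρ (Fil N) g}) → Unramified S ρ →
    (∀ g, TrivialAt ρ (Fil (e * r)) g) → ∀ g, ρ g = 1

theorem inertia_conj {F : Type} [Field F] (S : Set (Ideal (𝓞 F)))
    (σ τ : Gal(AlgebraicClosure F/F)) (hτ : τ ∈ inertia S) : σ * τ * σ⁻¹ ∈ inertia S := by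
  obtain ⟨P, hP, hPS, hPτ⟩ := hτ
  let φ : 𝓞 (AlgebraicClosure F) ≃+* 𝓞 (AlgebraicClosure F) :=
    MulSemiringAction.toRingEquiv (Gal(AlgebraicClosure F/F)) (𝓞 (AlgebraicClosure F)) σ⁻¹
  have hφ : ∀ x, φ x = σ⁻¹ • x := fun _ => rfl
  refine ⟨P.comap (φ : 𝓞 (AlgebraicClosure F) →+* 𝓞 (AlgebraicClosure F)),
    Ideal.comap_isMaximal_of_surjective _ φ.surjective, ?_, fun x => ?_⟩
  · have h1 : (P.comap (φ : 𝓞 (AlgebraicClosure F) →+* 𝓞 (AlgebraicClosure F))).comap
        (algebraMap (𝓞 F) (𝓞 (AlgebraicClosure F))) =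
        P.comap (algebraMap (𝓞 F) (𝓞 (AlgebraicClosure F))) := by
      ext x
      rw [Ideal.mem_comap, Ideal.mem_comap, Ideal.mem_comap]
      have h2 : (φ : 𝓞 (AlgebraicClosure F) →+* 𝓞 (AlgebraicClosure F))
          (algebraMap (𝓞 F) (𝓞 (AlgebraicClosure F)) x) =
          algebraMap (𝓞 F) (𝓞 (AlgebraicClosure F)) x := by
        show σ⁻¹ • algebraMap (𝓞 F) (𝓞 (AlgebraicClosure F)) x = _
        apply RingOfIntegers.ext
        show σ⁻¹ (algebraMap F (AlgebraicClosure F) x) = algebraMap F (AlgebraicClosure F) x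
        exact AlgEquiv.commutes σ⁻¹ (x : F)
      rw [h2]
    rw [h1]
    exact hPS
  · have h1 : (φ : 𝓞 (AlgebraicClosure F) →+* 𝓞 (AlgebraicClosure F)) ((σ * τ * σ⁻¹) • x - x) =
        τ • (σ⁻¹ • x) - σ⁻¹ • x := by
      show σ⁻¹ • ((σ * τ * σ⁻¹) • x - x) = τ • (σ⁻¹ • x) - σ⁻¹ • x
      rw [smul_sub, smul_smul, smul_smul]
      congr 2
      group
    rw [Ideal.mem_comap, h1]
    exact hPτ _

theorem inertia_sq {F : Type} [Field F] (S : Set (Ideal (𝓞 F)))
    (τ : Gal(AlgebraicClosure F/F)) (hτ : τ ∈ inertia S) : τ ^ 2 ∈ inertia S := by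
  obtain ⟨P, hP, hPS, hPτ⟩ := hτ
  refine ⟨P, hP, hPS, fun x => ?_⟩
  have h1 : τ ^ 2 • x - x = (τ • (τ • x) - τ • x) + (τ • x - x) := by
    rw [pow_two, mul_smul, sub_add_sub_cancel]
  rw [h1]
  exact P.add_mem (hPτ _) (hPτ _)

theorem compact_fix (F : Type) [Field F] [NumberField F]
    (K : IntermediateField F (AlgebraicClosure F)) [FiniteDimensional F K] :
    CompactSpace K.fixingSubgroup := by
  have h1 : IsOpen (K.fixingSubgroup : Set Gal(AlgebraicClosure F/F)) :=
    IntermediateField.fixingSubgroup_isOpen K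
  exact isCompact_iff_compactSpace.1 (Subgroup.isClosed_of_isOpen _ h1).isCompact

open Pool.Agent.X148.FM in
/-- part (1) -/
theorem part_one (p : ℕ) [Fact p.Prime] (F : Type) [Field F] [NumberField F]
    (K : IntermediateField F (AlgebraicClosure F)) [FiniteDimensional F K] [Normal F K]
    (hdeg : ¬ p ∣ Module.finrank F K) (S : Set (Ideal (𝓞 F))) (e : ℕ) (he : 2 < p ^ e)
    (hE : AbelianExponent S K p e) (hX : NoPerfectQuotient S K p) :
    RigidNoetherian S K p e ∧ RigidFiltered S K p e := by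
  have hgal : IsGalois F K := ⟨⟩
  have hcard : Nat.card Gal(K/F) = Module.finrank F K := IsGalois.card_aut_eq_finrank F K
  have hD : ¬ p ∣ Nat.card Gal(K/F) := by rw [hcard]; exact hdeg
  have hcomp : CompactSpace K.fixingSubgroup := compact_fix F K
  have hker : ∀ σ, σ ∈ K.fixingSubgroup ↔ AlgEquiv.restrictNormalHom K σ = 1 := fun σ => by
    rw [← IntermediateField.restrictNormalHom_ker, MonoidHom.mem_ker]
  have hNP : NoPerf p (AlgEquiv.restrictNormalHom K) K.fixingSubgroup (inertia S) :=
    fun W _ _ _ θ f h1 h2 h3 h4 b h5 h6 h7 => hX W θ f h1 h2 h3 h4 b ⟨h5, h6, h7⟩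
  have hIc : ∀ σ, ∀ τ ∈ inertia S, σ * τ * σ⁻¹ ∈ inertia S := fun σ τ hτ => inertia_conj S σ τ hτ
  have hE' : ∀ (E : Type) [CommGroup E] [Finite E], IsPGroup p E →
      ∀ f : K.fixingSubgroup →* E, IsOpen (f.ker : Set K.fixingSubgroup) →
      (∀ τ : K.fixingSubgroup, (τ : Gal(AlgebraicClosure F/F)) ∈ inertia S → f τ = 1) →
      ∀ g, f g ^ (p ^ e) = 1 := fun E _ _ hE' f hf hfu g => hE E hE' f hf hfu g
  refine ⟨?_, ?_⟩
  · intro A _ _ _ _ hA hpA n ρ hρ hur hcong
    have hcts := Pool.Agent.TH831.NA.cts_memN hA hρ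
    have hcong' : ∀ g, ∃ α : Matrix (Fin n) (Fin n) A,
        (ρ g : Matrix (Fin n) (Fin n) A) = 1 + ((p : A) ^ e) • α := by
      intro g
      have h1 : ∀ i j, ∃ b, ((ρ g : Matrix (Fin n) (Fin n) A) - 1) i j = (p : A) ^ e * b :=
        fun i j => Ideal.mem_span_singleton.1 (hcong g i j)
      choose b hb using h1
      refine ⟨Matrix.of b, ?_⟩
      rw [← sub_eq_iff_eq_add']
      ext i j
      rw [hb, Matrix.smul_apply, Matrix.of_apply, smul_eq_mul]
    have htor := tor_gen hD (AlgEquiv.restrictNormalHom K)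
      (AlgEquiv.restrictNormalHom_surjective _) K.fixingSubgroup hker (inertia S) hIc e he hE' hNP
      hpA ρ hcts hur hcong'
    refine ⟨?_, fun hk => triv_of_kill hk hcong' htor, fun hV => ?_⟩
    · obtain ⟨N, hN⟩ := Pool.Agent.TH831.NA.exists_kill (p := p) (A := A)
      exact ⟨N, fun g i j => hN _ (htor g i j)⟩
    · exact fin_gen hpA he {τ : K.fixingSubgroup | (τ : Gal(AlgebraicClosure F/F)) ∈ inertia S} hV
        hcts hur hcong' htor
  · intro A _ Fil r hr hFil n ρ hρ hur hcong
    have hF : PFil p r Fil := ⟨hFil.anti, hFil.mul, hFil.mem, hFil.inj, hFil.sep⟩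
    refine hF.triv he hr hD (AlgEquiv.restrictNormalHom K)
      (AlgEquiv.restrictNormalHom_surjective _) K.fixingSubgroup hker (inertia S) hIc hE' hNP
      ρ hur (fun N => ?_) hcong
    refine (hρ N).mem_nhds ?_
    show TrivialAt ρ (Fil N) 1
    intro i j
    rw [map_one, Units.val_one, sub_self, Matrix.zero_apply]
    exact Ideal.zero_mem _

/-- part (2) -/
theorem part_two (p : ℕ) [Fact p.Prime] (hp2 : p ≠ 2) (F : Type) [Field F] [NumberField F]
    (K : IntermediateField F (AlgebraicClosure F)) (hK : Module.finrank F K = 2)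
    (S : Set (Ideal (𝓞 F)))
    (hF : NoCyclic S p)
    (e : ℕ) (he1 : 1 ≤ e) (hE : AbelianExponent S K p e) :
    RigidNoetherian S K p e ∧ RigidFiltered S K p e := by
  have hp : p.Prime := Fact.out
  have hfd : FiniteDimensional F K := Module.finite_of_finrank_pos (by rw [hK]; norm_num)
  have hquad : Algebra.IsQuadraticExtension F K := ⟨hK⟩
  have hgal : IsGalois F K := inferInstance
  have hcard : Nat.card Gal(K/F) = 2 := by rw [IsGalois.card_aut_eq_finrank F K, hK]
  have hp3 : 2 < p := lt_of_le_of_ne hp.two_le (Ne.symm hp2)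
  have hdeg : ¬ p ∣ Module.finrank F K := by
    rw [hK]
    exact fun h => absurd (Nat.le_of_dvd (by norm_num) h) (by omega)
  refine part_one p F K hdeg S e (lt_of_lt_of_le hp3 (Nat.le_self_pow (by omega) p)) hE ?_
  rintro W _ _ _ θ f h1 h2 h3 h4 b ⟨h5, h6, h7⟩
  exact Pool.Agent.X148.FM.noPerf_quad hp2 hcard (AlgEquiv.restrictNormalHom K)
    (AlgEquiv.restrictNormalHom_surjective _) K.fixingSubgroup
    (fun σ => by rw [← IntermediateField.restrictNormalHom_ker, MonoidHom.mem_ker])
    (IntermediateField.fixingSubgroup_isOpen K) (inertia S) (fun τ hτ => inertia_sq S τ hτ) hF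
    W θ f h1 h2 h3 h4 b h5 h6 h7

/-- the prime ideals of `ℚ` which contain a number in `S` -/
def above (S : Set ℕ) : Set (Ideal (𝓞 ℚ)) := {P | ∃ l ∈ S, (l : 𝓞 ℚ) ∈ P}

theorem mem_above (S : Set ℕ) (P : Ideal (𝓞 (AlgebraicClosure ℚ))) :
    P.comap (algebraMap (𝓞 ℚ) (𝓞 (AlgebraicClosure ℚ))) ∉ above S ↔
      ∀ l ∈ S, (l : 𝓞 (AlgebraicClosure ℚ)) ∉ P := by
  unfold above
  simp only [Set.mem_ofPred_eq, Ideal.mem_comap, map_natCast, not_exists, not_and]

open Pool.Agent.W569.FM in
theorem rational_aux (p : ℕ) (hp : p.Prime) (S : Set ℕ)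
    (hS : ∀ l ∈ S, l.Prime ∧ l ≠ p ∧ ¬ p ∣ l - 1) {E : Type} [CommGroup E] [Finite E]
    (hpg : IsPGroup p E) (f : GF ℚ →* E) (hf : IsOpen (f.ker : Set (GF ℚ)))
    (hu : ∀ P : Ideal (OO ℚ), P.IsMaximal → (∀ l ∈ S, (l : OO ℚ) ∉ P) → ∀ τ : GF ℚ,
      InInertia P τ → f τ = 1) : ∀ g, f g = 1 := by
  have hGEN : S_GEN := Pool.Agent.W215.FM.main
  have hTAME : S_TAME := Pool.Agent.W327.FM.main Pool.Agent.W258.FM.main
  have hFROB : S_FROB := Pool.Agent.W571.FM.main
  refine hGEN _ f hf fun P hP τ hτ => ?_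
  by_cases h : ∀ l ∈ S, (l : OO ℚ) ∉ P
  · exact hu P hP h τ hτ
  · push Not at h
    obtain ⟨l, hlS, hlP⟩ := h
    obtain ⟨hl, hlp, hpl⟩ := hS l hlS
    obtain ⟨⟨Q, hQ, hlQ, σ, hσ⟩, hconj⟩ := hFROB l hl
    obtain ⟨g, hg⟩ := hconj Q P hQ hP hlQ hlP
    have h1 : f τ = f (g⁻¹ * τ * g) := by
      rw [map_mul, map_mul, map_inv, mul_comm, mul_inv_cancel_left]
    rw [h1]
    have h2 := (hTAME p l hp hl hlp.symm _ hpg f hf Q hQ hlQ).1 _ (hg τ hτ) σ hσ
    rw [map_mul, map_mul, map_inv, mul_comm (f σ), mul_inv_cancel_right] at h2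
    exact eq_one_of_pow hp hl.one_le hpl (hpg _) h2

/-- the rational numbers have no cyclic extension of degree `p` which is tame and ramified only at
primes `l ≢ 1` modulo `p` -/
theorem rational (p : ℕ) [Fact p.Prime] (S : Set ℕ) (hS : ∀ l ∈ S, l.Prime ∧ l ≠ p ∧ ¬ p ∣ l - 1)
    (f : Gal(AlgebraicClosure ℚ/ℚ) →* Multiplicative (ZMod p))
    (hf : IsOpen (f.ker : Set Gal(AlgebraicClosure ℚ/ℚ)))
    (hu : ∀ τ ∈ inertia (above S), f τ = 1) : ∀ g, f g = 1 := by
  have hpg : IsPGroup p (Multiplicative (ZMod p)) := by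
    refine IsPGroup.of_card (n := 1) ?_
    rw [pow_one, Nat.card_congr Multiplicative.toAdd, Nat.card_zmod]
  exact rational_aux p Fact.out S hS hpg f hf fun P hP h τ hτ =>
    hu τ ⟨P, hP, (mem_above S P).2 h, hτ⟩

/-- **A module criterion for representations over local rings.** -/
theorem result :
    -- (1) Galois extensions of degree prime to `p`
    (∀ (p : ℕ) [Fact p.Prime] (F : Type) [Field F] [NumberField F]
      (K : IntermediateField F (AlgebraicClosure F)) [FiniteDimensional F K] [Normal F K],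
      ¬ p ∣ Module.finrank F K → ∀ (S : Set (Ideal (𝓞 F))) (e : ℕ), 2 < p ^ e →
      AbelianExponent S K p e → NoPerfectQuotient S K p →
      RigidNoetherian S K p e ∧ RigidFiltered S K p e) ∧
    -- (2) quadratic extensions
    (∀ (p : ℕ) [Fact p.Prime], p ≠ 2 → ∀ (F : Type) [Field F] [NumberField F]
      (K : IntermediateField F (AlgebraicClosure F)), Module.finrank F K = 2 →
      ∀ S : Set (Ideal (𝓞 F)), NoCyclic S p →
      ∀ e : ℕ, 1 ≤ e → AbelianExponent S K p e →
      RigidNoetherian S K p e ∧ RigidFiltered S K p e) ∧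
    -- (3) quadratic fields
    (∀ (p : ℕ) [Fact p.Prime], p ≠ 2 → ∀ K : IntermediateField ℚ (AlgebraicClosure ℚ),
      Module.finrank ℚ K = 2 → ∀ S : Set ℕ, (∀ l ∈ S, l.Prime ∧ l ≠ p ∧ ¬ p ∣ l - 1) →
      ∀ e : ℕ, 1 ≤ e → AbelianExponent (above S) K p e →
      RigidNoetherian (above S) K p e ∧ RigidFiltered (above S) K p e) := by
  refine ⟨fun p _ F _ _ K _ _ h1 S e h2 h3 h4 => part_one p F K h1 S e h2 h3 h4,
    fun p _ h1 F _ _ K h2 S h3 e h4 h5 => part_two p h1 F K h2 S h3 e h4 h5,
    fun p _ h1 K h2 S h3 e h4 h5 =>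
      part_two p h1 ℚ K h2 (above S) (fun f hf hu => rational p S h3 f hf hu) e h4 h5⟩

end Pool.Agent.Results.MP_924d78_nt.ModuleCriterionNoetherian
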