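import Pool.Agent.X148.FM.Tri3
import Pool.Agent.W215.FM.Gen
import Pool.Agent.W327.FM.TameAbs
import Pool.Agent.W258.FM.TameFin
import Pool.Agent.W571.FM.Frob

/-!
# Residually diagonal representations over local rings: graphs without transitive triangles

Let `K/F` be a finite Galois extension of number fields and `S` a set of primes of `F`, and suppose that
`p ^ e > 2` kills the Galois groups of the finite abelian `p`-extensions of `K` unramified outside `S`.  Let
`χ_1, ..., χ_n` be characters `G_F → (ℤ/p)ˣ`.  Draw an arrow from `i` to `j` if the character `χ_i / χ_j` occurs in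
`Hom(G_K, ℤ/p)`, that is, if there is a nonzero homomorphism from `G_K` to `ℤ/p`, unramified outside `S`, on which
`G_F` acts by `χ_i / χ_j`.  Suppose that one of the following holds.

(1) The graph contains no transitive triangle: there are no `i, j, k` (equal or not) with arrows from `i` to `j`,
from `i` to `k` and from `k` to `j`.  (Directed cycles of length 2 or 3 and so on are allowed.)

(2) `n = 2`, `p` does not divide `[K : F]`, and `F` has no cyclic extension of degree `p` unramified outside `S`.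

(3) `n = 2`, `F = ℚ`, `p` does not divide `[K : ℚ]`, and `S` consists of prime numbers `l ≢ 0, 1 mod p`.

Then the following holds for representations `ρ : G_F → GL_n(A)` whose restriction to `G_K` is unramified outside `S`.

(A) Let `A` be any Noetherian local ring of residue characteristic `p` with its adic topology and let `ρ` be
continuous, congruent modulo `p` to the diagonal matrices `χ_1, ..., χ_n`, and trivial modulo `p ^ e` on `G_K`.
Then a power of `p` kills the matrices `ρ g - 1` for `g` in `G_K`; `ρ` is trivial on `G_K` if `p ^ (e + 1) a = 0`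
implies `p ^ e a = 0` in `A`; and the image of `ρ` is finite if there are only finitely many homomorphisms from
`G_K` to `ℤ/p` unramified outside `S` (for finite `S` this is the case by class field theory).

(B) Let `A` be any commutative ring with a separated multiplicative filtration `F_0 ⊇ F_1 ⊇ ...` by ideals such that
`p` is in `F_r`, `r ≥ 1`, and the multiplication by `p` from `F_i / F_(i+1)` to `F_(i+r) / F_(i+r+1)` is injective
for all `i`.  If `ρ` is continuous for the topology of the filtration, congruent to the diagonal matrices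
`χ_1, ..., χ_n` modulo `F_1`, and trivial modulo `F_(e r)` on `G_K`, then it is trivial on `G_K`.
-/

set_option autoImplicit false

open NumberField IsLocalRing

namespace Pool.Agent.Results.MP_924d78_nt.TriangleFree

/-- The elements of the inertia groups in the absolute Galois group of `F` at the primes outside `S`: the `τ` such
that `τ x - x ∈ P` for all algebraic integers `x`, for some maximal ideal `P` of the ring of all algebraic integers
with `P ∩ 𝓞 F` not in `S`. -/
def inertia {F : Type} [Field F] (S : Set (Ideal (𝓞 F))) : Set Gal(AlgebraicClosure F/F) :=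
  {τ | ∃ P : Ideal (𝓞 (AlgebraicClosure F)), P.IsMaximal ∧
    P.comap (algebraMap (𝓞 F) (𝓞 (AlgebraicClosure F))) ∉ S ∧ ∀ x : 𝓞 (AlgebraicClosure F), τ • x - x ∈ P}

/-- The homomorphism `f` of the absolute Galois group of `K` is unramified outside `S`. -/
def Unramified {F : Type} [Field F] (S : Set (Ideal (𝓞 F)))
    {K : IntermediateField F (AlgebraicClosure F)} {E : Type} [Group E]
    (f : K.fixingSubgroup →* E) : Prop :=
  ∀ τ : K.fixingSubgroup, (τ : Gal(AlgebraicClosure F/F)) ∈ inertia S → f τ = 1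

/-- `p ^ e` kills the Galois group of every finite abelian extension of `K` of `p`-power degree which is
unramified outside `S`. -/
def AbelianExponent {F : Type} [Field F] (S : Set (Ideal (𝓞 F)))
    (K : IntermediateField F (AlgebraicClosure F)) (p e : ℕ) : Prop :=
  ∀ (E : Type) [CommGroup E] [Finite E], IsPGroup p E → ∀ f : K.fixingSubgroup →* E,
    IsOpen (f.ker : Set K.fixingSubgroup) → Unramified S f → ∀ g, f g ^ (p ^ e) = 1

/-- The character `ψ` of the absolute Galois group of `F` occurs in `Hom(G_K, ℤ/p)`: there is a nonzero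
homomorphism to `ℤ/p`, unramified outside `S`, on which the absolute Galois group of `F` acts by `ψ`. -/
def Occurs {F : Type} [Field F] (S : Set (Ideal (𝓞 F)))
    (K : IntermediateField F (AlgebraicClosure F)) (p : ℕ)
    (ψ : Gal(AlgebraicClosure F/F) →* (ZMod p)ˣ) : Prop :=
  ∃ f : K.fixingSubgroup →* Multiplicative (ZMod p), IsOpen (f.ker : Set K.fixingSubgroup) ∧
    Unramified S f ∧
    (∀ (σ : Gal(AlgebraicClosure F/F)) (h h' : K.fixingSubgroup),
      (h' : Gal(AlgebraicClosure F/F)) = σ * h * σ⁻¹ →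
      Multiplicative.toAdd (f h') = (ψ σ : ZMod p) * Multiplicative.toAdd (f h)) ∧
    ∃ h, f h ≠ 1

/-- The graph with an arrow from `i` to `j` if `χ i / χ j` occurs contains no transitive triangle. -/
def NoTriangle {F : Type} [Field F] (S : Set (Ideal (𝓞 F)))
    (K : IntermediateField F (AlgebraicClosure F)) (p : ℕ) {n : ℕ}
    (χ : Fin n → Gal(AlgebraicClosure F/F) →* (ZMod p)ˣ) : Prop :=
  ∀ i j k, Occurs S K p (χ i * (χ j)⁻¹) → Occurs S K p (χ i * (χ k)⁻¹) →
    ¬ Occurs S K p (χ k * (χ j)⁻¹)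

/-- `F` has no cyclic extension of degree `p` unramified outside `S`. -/
def NoCyclic {F : Type} [Field F] (S : Set (Ideal (𝓞 F))) (p : ℕ) : Prop :=
  ∀ f : Gal(AlgebraicClosure F/F) →* Multiplicative (ZMod p),
    IsOpen (f.ker : Set Gal(AlgebraicClosure F/F)) → (∀ τ ∈ inertia S, f τ = 1) → ∀ g, f g = 1

/-- `ρ g` is congruent to the identity modulo the ideal `I` of `A`. -/
def TrivialAt {A : Type} [CommRing A] {G : Type} [Group G] {n : ℕ} (ρ : G →* GL (Fin n) A)
    (I : Ideal A) (g : G) : Prop :=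
  ∀ i j, ((ρ g : Matrix (Fin n) (Fin n) A) - 1) i j ∈ I

/-- `K/F` is a finite Galois extension of degree prime to `p`. -/
def GaloisPrimeTo (p : ℕ) {F : Type} [Field F] (K : IntermediateField F (AlgebraicClosure F)) : Prop :=
  FiniteDimensional F K ∧ Normal F K ∧ ¬ p ∣ Module.finrank F K

/-- `ρ` is congruent modulo the ideal `I` of `A` to the diagonal matrices with the entries `χ i`. -/
def DiagonalAt {A : Type} [CommRing A] {G : Type} [Group G] {n p : ℕ} (ρ : G →* GL (Fin n) A)
    (χ : Fin n → G →* (ZMod p)ˣ) (I : Ideal A) : Prop :=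
  ∀ σ i j, (ρ σ : Matrix (Fin n) (Fin n) A) i j -
    (if i = j then (((χ i σ : ZMod p).val : ℕ) : A) else 0) ∈ I

/-- (A) Representations over Noetherian local rings of residue characteristic `p` which are congruent to `χ`
modulo `p` and trivial modulo `p ^ e` on `G_K`: a power of `p` kills `ρ - 1` on `G_K`; `ρ` is trivial on `G_K` if no
element is killed by `p ^ (e + 1)` but not by `p ^ e`; and the image is finite if there are only finitely many
homomorphisms from `G_K` to `ℤ/p` unramified outside `S`. -/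
def RigidNoetherian {F : Type} [Field F] (S : Set (Ideal (𝓞 F)))
    (K : IntermediateField F (AlgebraicClosure F)) (p e : ℕ) {n : ℕ}
    (χ : Fin n → Gal(AlgebraicClosure F/F) →* (ZMod p)ˣ) : Prop :=
  ∀ (A : Type) [CommRing A] [IsLocalRing A] [IsNoetherianRing A] [TopologicalSpace A],
    IsAdic (maximalIdeal A) → (p : A) ∈ maximalIdeal A →
    ∀ ρ : Gal(AlgebraicClosure F/F) →* GL (Fin n) A, Continuous ρ →
    Unramified S (ρ.comp K.fixingSubgroup.subtype) → DiagonalAt ρ χ (Ideal.span {(p : A)}) →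
    (∀ g ∈ K.fixingSubgroup, TrivialAt ρ (Ideal.span {(p : A) ^ e}) g) →
    (∃ N : ℕ, ∀ g ∈ K.fixingSubgroup, ∀ i j,
      (p : A) ^ N * ((ρ g : Matrix (Fin n) (Fin n) A) - 1) i j = 0) ∧
    ((∀ a : A, (p : A) ^ (e + 1) * a = 0 → (p : A) ^ e * a = 0) → ∀ g ∈ K.fixingSubgroup, ρ g = 1) ∧
    ({f : K.fixingSubgroup →* Multiplicative (ZMod p) |
      IsOpen (f.ker : Set K.fixingSubgroup) ∧ Unramified S f}.Finite → (Set.range ρ).Finite)

/-- `F` is a separated filtration of the ring `A` by ideals such that `p` is in `F r` and the multiplication by `p`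
is injective from `F i / F (i + 1)` to `F (i + r) / F (i + r + 1)`. -/
structure Filtered {A : Type} [CommRing A] (p r : ℕ) (F : ℕ → Ideal A) : Prop where
  anti : ∀ i, F (i + 1) ≤ F i
  mul : ∀ i j, ∀ a ∈ F i, ∀ b ∈ F j, a * b ∈ F (i + j)
  mem : (p : A) ∈ F r
  inj : ∀ i, ∀ a ∈ F i, (p : A) * a ∈ F (i + r + 1) → a ∈ F (i + 1)
  sep : ∀ a, (∀ i, a ∈ F i) → a = 0

/-- (B) Representations over filtered rings which are congruent to `χ` modulo `F 1` and trivial modulo `F (e r)` on
`G_K` are trivial on `G_K`. -/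
def RigidFiltered {F : Type} [Field F] (S : Set (Ideal (𝓞 F)))
    (K : IntermediateField F (AlgebraicClosure F)) (p e : ℕ) {n : ℕ}
    (χ : Fin n → Gal(AlgebraicClosure F/F) →* (ZMod p)ˣ) : Prop :=
  ∀ (A : Type) [CommRing A] (Fil : ℕ → Ideal A) (r : ℕ), 1 ≤ r → Filtered p r Fil →
    ∀ ρ : Gal(AlgebraicClosure F/F) →* GL (Fin n) A,
    (∀ N, IsOpen {g | TrivialAt ρ (Fil N) g}) → Unramified S (ρ.comp K.fixingSubgroup.subtype) →
    DiagonalAt ρ χ (Fil 1) → (∀ g ∈ K.fixingSubgroup, TrivialAt ρ (Fil (e * r)) g) →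
    ∀ g ∈ K.fixingSubgroup, ρ g = 1

theorem inertia_conj {F : Type} [Field F] (S : Set (Ideal (𝓞 F)))
    (σ τ : Gal(AlgebraicClosure F/F)) (hτ : τ ∈ inertia S) : σ * τ * σ⁻¹ ∈ inertia S := by
  obtain ⟨P, hP, hPS, hPτ⟩ := hτ
  let φ : 𝓞 (AlgebraicClosure F) ≃+* 𝓞 (AlgebraicClosure F) :=
    MulSemiringAction.toRingEquiv (Gal(AlgebraicClosure F/F)) (𝓞 (AlgebraicClosure F)) σ⁻¹
  have hφ : ∀ x, φ x = σ⁻¹ • x := fun _ => rfl
  refine ⟨P.comap (φ : 𝓞 (AlgebraicClosure F) →+* 𝓞 (AlgebraicClosure F)),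
    Ideal.comap_isMaximal_of_surjective _ φ.surjective, ?_, fun x => ?_⟩
  · have h1 : (P.comap (φ : 𝓞 (AlgebraicClosure F) →+* 𝓞 (AlgebraicClosure F))).comap
        (algebraMap (𝓞 F) (𝓞 (AlgebraicClosure F))) =
        P.comap (algebraMap (𝓞 F) (𝓞 (AlgebraicClosure F))) := by
      ext x
      rw [Ideal.mem_comap, Ideal.mem_comap, Ideal.mem_comap]
      have h2 : (φ : 𝓞 (AlgebraicClosure F) →+* 𝓞 (AlgebraicClosure F))
          (algebraMap (𝓞 F) (𝓞 (AlgebraicClosure F)) x) =
          algebraMap (𝓞 F) (𝓞 (AlgebraicClosure F)) x := by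
        show σ⁻¹ • algebraMap (𝓞 F) (𝓞 (AlgebraicClosure F)) x = _
        apply RingOfIntegers.ext
        show σ⁻¹ (algebraMap F (AlgebraicClosure F) x) = algebraMap F (AlgebraicClosure F) x
        exact AlgEquiv.commutes σ⁻¹ (x : F)
      rw [h2]
    rw [h1]
    exact hPS
  · have h1 : (φ : 𝓞 (AlgebraicClosure F) →+* 𝓞 (AlgebraicClosure F)) ((σ * τ * σ⁻¹) • x - x) =
        τ • (σ⁻¹ • x) - σ⁻¹ • x := by
      show σ⁻¹ • ((σ * τ * σ⁻¹) • x - x) = τ • (σ⁻¹ • x) - σ⁻¹ • x
      rw [smul_sub, smul_smul, smul_smul]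
      congr 2
      group
    rw [Ideal.mem_comap, h1]
    exact hPτ _

theorem inertia_pow {F : Type} [Field F] (S : Set (Ideal (𝓞 F)))
    (τ : Gal(AlgebraicClosure F/F)) (hτ : τ ∈ inertia S) (n : ℕ) : τ ^ n ∈ inertia S := by
  obtain ⟨P, hP, hPS, hPτ⟩ := hτ
  refine ⟨P, hP, hPS, fun x => ?_⟩
  induction n with
  | zero => rw [pow_zero, one_smul, sub_self]; exact P.zero_mem
  | succ n ih =>
    have h1 : τ ^ (n + 1) • x - x = (τ • (τ ^ n • x) - τ ^ n • x) + (τ ^ n • x - x) := by
      rw [pow_succ', mul_smul, sub_add_sub_cancel]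
    rw [h1]
    exact P.add_mem (hPτ _) ih

theorem compact_fix (F : Type) [Field F] [NumberField F]
    (K : IntermediateField F (AlgebraicClosure F)) [FiniteDimensional F K] :
    CompactSpace K.fixingSubgroup := by
  have h1 : IsOpen (K.fixingSubgroup : Set Gal(AlgebraicClosure F/F)) :=
    IntermediateField.fixingSubgroup_isOpen K
  exact isCompact_iff_compactSpace.1 (Subgroup.isClosed_of_isOpen _ h1).isCompact

theorem range_fin {G E : Type} [Group G] [Group E] (H : Subgroup G) [H.FiniteIndex] (ρ : G →* E)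
    (h : (Set.range (ρ.comp H.subtype)).Finite) : (Set.range ρ).Finite := by
  have h1 : (⋃ q : G ⧸ H, (fun y => ρ q.out * y) '' (Set.range (ρ.comp H.subtype))).Finite :=
    Set.finite_iUnion fun q => h.image _
  refine h1.subset ?_
  rintro _ ⟨g, rfl⟩
  have h2 : ((g : G ⧸ H).out)⁻¹ * g ∈ H := by
    rw [← QuotientGroup.eq, QuotientGroup.out_eq']
  refine Set.mem_iUnion.2 ⟨(g : G ⧸ H), ρ (((g : G ⧸ H).out)⁻¹ * g), ⟨⟨_, h2⟩, rfl⟩, ?_⟩
  show ρ _ * ρ _ = ρ g
  rw [← map_mul, mul_inv_cancel_left]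

theorem normal_fix {F : Type} [Field F] (K : IntermediateField F (AlgebraicClosure F)) [Normal F K] :
    K.fixingSubgroup.Normal := by
  rw [← IntermediateField.restrictNormalHom_ker]
  exact MonoidHom.normal_ker _

theorem index_fix {F : Type} [Field F] [NumberField F] (K : IntermediateField F (AlgebraicClosure F))
    [FiniteDimensional F K] [Normal F K] : K.fixingSubgroup.index = Module.finrank F K := by
  have hgal : IsGalois F K := ⟨⟩
  rw [← IsGalois.card_aut_eq_finrank F K, ← IntermediateField.restrictNormalHom_ker,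
    Subgroup.index_ker, MonoidHom.range_eq_top.2 (AlgEquiv.restrictNormalHom_surjective _)]
  exact Nat.card_congr Subgroup.topEquiv.toEquiv

open Pool.Agent.X148.FM in
/-- part (1) -/
theorem part_one (p : ℕ) [Fact p.Prime] (F : Type) [Field F] [NumberField F]
    (K : IntermediateField F (AlgebraicClosure F)) [FiniteDimensional F K] [Normal F K]
    (S : Set (Ideal (𝓞 F))) (e : ℕ) (he : 2 < p ^ e)
    (hE : AbelianExponent S K p e) (n : ℕ) (χ : Fin n → Gal(AlgebraicClosure F/F) →* (ZMod p)ˣ)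
    (hX : NoTriangle S K p χ) : RigidNoetherian S K p e χ ∧ RigidFiltered S K p e χ := by
  have hcomp : CompactSpace K.fixingSubgroup := compact_fix F K
  have hnorm : K.fixingSubgroup.Normal := normal_fix K
  have hfi : K.fixingSubgroup.FiniteIndex := ⟨by
    rw [index_fix]
    exact Module.finrank_pos.ne'⟩
  have hE' : ∀ (E : Type) [CommGroup E] [Finite E], IsPGroup p E →
      ∀ f : K.fixingSubgroup →* E, IsOpen (f.ker : Set K.fixingSubgroup) →
      (∀ τ : K.fixingSubgroup, (τ : Gal(AlgebraicClosure F/F)) ∈ inertia S → f τ = 1) →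
      ∀ g, f g ^ (p ^ e) = 1 := fun E _ _ hE' f hf hfu g => hE E hE' f hf hfu g
  have hOcc : ∀ ψ, Occ p K.fixingSubgroup (inertia S) ψ ↔ Occurs S K p ψ := fun _ => Iff.rfl
  have hX' : ∀ i j k, Occ p K.fixingSubgroup (inertia S) (χ i * (χ j)⁻¹) →
      Occ p K.fixingSubgroup (inertia S) (χ i * (χ k)⁻¹) →
      ¬ Occ p K.fixingSubgroup (inertia S) (χ k * (χ j)⁻¹) := fun i j k => hX i j k
  refine ⟨?_, ?_⟩
  · intro A _ _ _ _ hA hpA ρ hρ hur hdiag hcong
    have hρH : Continuous (ρ.comp K.fixingSubgroup.subtype) := hρ.comp continuous_subtype_val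
    have hcts := Pool.Agent.TH831.NA.cts_memN hA hρH
    have hur' : ∀ τ : K.fixingSubgroup, (τ : Gal(AlgebraicClosure F/F)) ∈ inertia S → ρ τ = 1 :=
      fun τ hτ => hur τ hτ
    have hdiag' : ∀ (σ : Gal(AlgebraicClosure F/F)) (i j : Fin n), ∃ a : A,
        (ρ σ : Matrix (Fin n) (Fin n) A) i j =
        (if i = j then (((χ i σ : ZMod p).val : ℕ) : A) else 0) + (p : A) * a := by
      intro σ i j
      obtain ⟨a, ha⟩ := Ideal.mem_span_singleton.1 (hdiag σ i j)
      exact ⟨a, by rw [← ha]; ring⟩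
    have hcong' : ∀ g : K.fixingSubgroup, ∃ α : Matrix (Fin n) (Fin n) A,
        (ρ g : Matrix (Fin n) (Fin n) A) = 1 + ((p : A) ^ e) • α := by
      intro g
      have h1 : ∀ i j, ∃ b, ((ρ g : Matrix (Fin n) (Fin n) A) - 1) i j = (p : A) ^ e * b :=
        fun i j => Ideal.mem_span_singleton.1 (hcong g g.2 i j)
      choose b hb using h1
      refine ⟨Matrix.of b, ?_⟩
      rw [← sub_eq_iff_eq_add']
      ext i j
      rw [hb, Matrix.smul_apply, Matrix.of_apply, smul_eq_mul]
    have htor := tri_tor K.fixingSubgroup (inertia S) e he hE' χ hX' hpA ρ hcts hur' hdiag' hcong'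
    refine ⟨?_, fun hk g hg => ?_, fun hV => ?_⟩
    · obtain ⟨N, hN⟩ := Pool.Agent.TH831.NA.exists_kill (p := p) (A := A)
      exact ⟨N, fun g hg i j => hN _ (htor ⟨g, hg⟩ i j)⟩
    · exact triv_of_kill (ρ := ρ.comp K.fixingSubgroup.subtype) hk hcong' htor ⟨g, hg⟩
    · refine range_fin K.fixingSubgroup ρ ?_
      exact fin_gen hpA he {τ : K.fixingSubgroup | (τ : Gal(AlgebraicClosure F/F)) ∈ inertia S} hV
        hcts hur' hcong' htor
  · intro A _ Fil r hr hFil ρ hρ hur hdiag hcong
    have hF : PFil p r Fil := ⟨hFil.anti, hFil.mul, hFil.mem, hFil.inj, hFil.sep⟩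
    have h1 := hF.tri he hr K.fixingSubgroup (inertia S) hE' χ hX' ρ (fun N => by
      refine (((hρ N).preimage continuous_subtype_val)).mem_nhds ?_
      show TrivialAt ρ (Fil N) 1
      intro i j
      rw [map_one, Units.val_one, sub_self, Matrix.zero_apply]
      exact Ideal.zero_mem _) (fun τ hτ => hur τ hτ) hdiag (fun g => hcong g g.2)
    exact fun g hg => h1 ⟨g, hg⟩

open Pool.Agent.X148.FM in
/-- part (2) -/
theorem part_two (p : ℕ) [hp : Fact p.Prime] (F : Type) [Field F] [NumberField F]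
    (K : IntermediateField F (AlgebraicClosure F))
    (hK : GaloisPrimeTo p K) (S : Set (Ideal (𝓞 F))) (hF : NoCyclic S p)
    (e : ℕ) (he : 2 < p ^ e) (hE : AbelianExponent S K p e)
    (χ : Fin 2 → Gal(AlgebraicClosure F/F) →* (ZMod p)ˣ) :
    RigidNoetherian S K p e χ ∧ RigidFiltered S K p e χ := by
  obtain ⟨hfd, hn, hK⟩ := hK
  have hnorm : K.fixingSubgroup.Normal := normal_fix K
  have hidx := index_fix K
  have hfi : K.fixingSubgroup.FiniteIndex := ⟨by
    rw [hidx]
    exact Module.finrank_pos.ne'⟩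
  refine part_one p F K S e he hE 2 χ fun i j k h1 h2 h3 => ?_
  have h0 : ¬ Occ p K.fixingSubgroup (inertia S) 1 :=
    not_occ_one K.fixingSubgroup (by rw [hidx]; exact hK)
      (IntermediateField.fixingSubgroup_isOpen K) (inertia S)
      (fun τ hτ k => inertia_pow S τ hτ k) (fun f hf hfI g => hF f hf hfI g)
  exact tri_two K.fixingSubgroup (inertia S) h0 χ i j k h1 h2 h3

/-- the prime ideals of `ℚ` which contain a number in `S` -/
def above (S : Set ℕ) : Set (Ideal (𝓞 ℚ)) := {P | ∃ l ∈ S, (l : 𝓞 ℚ) ∈ P}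

theorem mem_above (S : Set ℕ) (P : Ideal (𝓞 (AlgebraicClosure ℚ))) :
    P.comap (algebraMap (𝓞 ℚ) (𝓞 (AlgebraicClosure ℚ))) ∉ above S ↔
      ∀ l ∈ S, (l : 𝓞 (AlgebraicClosure ℚ)) ∉ P := by
  unfold above
  simp only [Set.mem_ofPred_eq, Ideal.mem_comap, map_natCast, not_exists, not_and]

open Pool.Agent.W569.FM in
theorem rational_aux (p : ℕ) (hp : p.Prime) (S : Set ℕ)
    (hS : ∀ l ∈ S, l.Prime ∧ l ≠ p ∧ ¬ p ∣ l - 1) {E : Type} [CommGroup E] [Finite E]
    (hpg : IsPGroup p E) (f : GF ℚ →* E) (hf : IsOpen (f.ker : Set (GF ℚ)))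
    (hu : ∀ P : Ideal (OO ℚ), P.IsMaximal → (∀ l ∈ S, (l : OO ℚ) ∉ P) → ∀ τ : GF ℚ,
      InInertia P τ → f τ = 1) : ∀ g, f g = 1 := by
  have hGEN : S_GEN := Pool.Agent.W215.FM.main
  have hTAME : S_TAME := Pool.Agent.W327.FM.main Pool.Agent.W258.FM.main
  have hFROB : S_FROB := Pool.Agent.W571.FM.main
  refine hGEN _ f hf fun P hP τ hτ => ?_
  by_cases h : ∀ l ∈ S, (l : OO ℚ) ∉ P
  · exact hu P hP h τ hτ
  · push Not at h
    obtain ⟨l, hlS, hlP⟩ := h
    obtain ⟨hl, hlp, hpl⟩ := hS l hlS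
    obtain ⟨⟨Q, hQ, hlQ, σ, hσ⟩, hconj⟩ := hFROB l hl
    obtain ⟨g, hg⟩ := hconj Q P hQ hP hlQ hlP
    have h1 : f τ = f (g⁻¹ * τ * g) := by
      rw [map_mul, map_mul, map_inv, mul_comm, mul_inv_cancel_left]
    rw [h1]
    have h2 := (hTAME p l hp hl hlp.symm _ hpg f hf Q hQ hlQ).1 _ (hg τ hτ) σ hσ
    rw [map_mul, map_mul, map_inv, mul_comm (f σ), mul_inv_cancel_right] at h2
    exact eq_one_of_pow hp hl.one_le hpl (hpg _) h2

/-- the rational numbers have no cyclic extension of degree `p` which is tame and ramified only at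
primes `l ≢ 1` modulo `p` -/
theorem rational (p : ℕ) [Fact p.Prime] (S : Set ℕ) (hS : ∀ l ∈ S, l.Prime ∧ l ≠ p ∧ ¬ p ∣ l - 1)
    (f : Gal(AlgebraicClosure ℚ/ℚ) →* Multiplicative (ZMod p))
    (hf : IsOpen (f.ker : Set Gal(AlgebraicClosure ℚ/ℚ)))
    (hu : ∀ τ ∈ inertia (above S), f τ = 1) : ∀ g, f g = 1 := by
  have hpg : IsPGroup p (Multiplicative (ZMod p)) := by
    refine IsPGroup.of_card (n := 1) ?_
    rw [pow_one, Nat.card_congr Multiplicative.toAdd, Nat.card_zmod]
  exact rational_aux p Fact.out S hS hpg f hf fun P hP h τ hτ =>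
    hu τ ⟨P, hP, (mem_above S P).2 h, hτ⟩

/-- **Residually diagonal representations whose graph has no transitive triangle.** -/
theorem result :
    -- (1) graphs without transitive triangles
    (∀ (p : ℕ) [Fact p.Prime] (F : Type) [Field F] [NumberField F]
      (K : IntermediateField F (AlgebraicClosure F)) [FiniteDimensional F K] [Normal F K]
      (S : Set (Ideal (𝓞 F))) (e : ℕ), 2 < p ^ e → AbelianExponent S K p e →
      ∀ (n : ℕ) (χ : Fin n → Gal(AlgebraicClosure F/F) →* (ZMod p)ˣ), NoTriangle S K p χ →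
      RigidNoetherian S K p e χ ∧ RigidFiltered S K p e χ) ∧
    -- (2) sums of two characters
    (∀ (p : ℕ) [Fact p.Prime] (F : Type) [Field F] [NumberField F]
      (K : IntermediateField F (AlgebraicClosure F)), GaloisPrimeTo p K →
      ∀ S : Set (Ideal (𝓞 F)), NoCyclic S p →
      ∀ e : ℕ, 2 < p ^ e → AbelianExponent S K p e →
      ∀ χ : Fin 2 → Gal(AlgebraicClosure F/F) →* (ZMod p)ˣ,
      RigidNoetherian S K p e χ ∧ RigidFiltered S K p e χ) ∧
    -- (3) the rational numbers
    (∀ (p : ℕ) [Fact p.Prime] (K : IntermediateField ℚ (AlgebraicClosure ℚ)), GaloisPrimeTo p K →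
      ∀ S : Set ℕ, (∀ l ∈ S, l.Prime ∧ l ≠ p ∧ ¬ p ∣ l - 1) →
      ∀ e : ℕ, 2 < p ^ e → AbelianExponent (above S) K p e →
      ∀ χ : Fin 2 → Gal(AlgebraicClosure ℚ/ℚ) →* (ZMod p)ˣ,
      RigidNoetherian (above S) K p e χ ∧ RigidFiltered (above S) K p e χ) := by
  refine ⟨fun p _ F _ _ K _ _ S e h1 h2 n χ h3 => part_one p F K S e h1 h2 n χ h3,
    fun p _ F _ _ K h1 S h2 e h3 h4 χ => part_two p F K h1 S h2 e h3 h4 χ,
    fun p _ K h1 S h2 e h3 h4 χ =>
      part_two p ℚ K h1 (above S) (fun f hf hu => rational p S h2 f hf hu) e h3 h4 χ⟩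

end Pool.Agent.Results.MP_924d78_nt.TriangleFree
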